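import Mathlib
import Pool.Agent.Run7.h222.SU.Asm
import Pool.Agent.Run7.h774.SU.W
import Pool.Agent.Run7.h774.SU.EMB
import Pool.Agent.Run7.h382.SU.BLK
import Pool.Agent.Run7.h824.SU.SELB
import Pool.Agent.Run7.h739.SU.SELA

set_option autoImplicit false

/-!
# MP_ca7eb7_al, Q1: every element of `SU(n)`, `n ≥ 3`, is a product of four involutions of `SU(n)`

Diagonalise, and factor the diagonal matrix as `X Y` by partial products of the eigenvalues, so that
the spectra of `X` and `Y` are paired by complex conjugation; this gives two times two involutions,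
except that for `n ≡ 2 mod 4` the matrix `X` needs a real eigenvalue.  For such `n` the factors are
changed on one coordinate plane (interlacing of the eigenvalues of unitary `2 × 2` matrices), after
a suitable choice of the order of the eigenvalues (crossing of the sums of sliding windows).
-/

namespace Pool.Agent.Results.MP_ca7eb7_al.FourInvolutions

/-- **Positive answer to Q1.** For every `n ≥ 3`, every element of `SU(n)` is a product of four
involutions of `SU(n)`. -/
theorem result : ∀ n : ℕ, 3 ≤ n → ∀ A ∈ Matrix.specialUnitaryGroup (Fin n) ℂ,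
    ∃ g : Fin 4 → Matrix (Fin n) (Fin n) ℂ,
      (∀ i, g i ∈ Matrix.specialUnitaryGroup (Fin n) ℂ ∧ g i * g i = 1) ∧
        A = g 0 * g 1 * g 2 * g 3 := by
  intro n hn A hA
  obtain ⟨I1, I2, I3, I4, h1, h2, h3, h4, h⟩ := Run7.h222.SU.four_all Run7.h382.SU.t_BLK
    Run7.h774.SU.t_EMB (Run7.h739.SU.t_SELA Run7.h774.SU.t_W)
    (Run7.h824.SU.t_SELB Run7.h774.SU.t_W) hn hA
  refine ⟨![I1, I2, I3, I4], ?_, ?_⟩
  · intro i
    fin_cases i
    · exact h1
    · exact h2
    · exact h3
    · exact h4
  · exact h

end Pool.Agent.Results.MP_ca7eb7_al.FourInvolutions
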